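import Pool.Agent.H10.FEX.Stmts
import Pool.Agent.H27.ABCR.CRT

/-! FEX, module MO2: moments of one factor. -/

set_option autoImplicit false

namespace Pool.FEX

open Finset Pool.Agent.H98.ABCR Pool.SHA Pool.FEW

/-- solutions of `x ^ (r s) = c` among the units modulo `l`, `l - 1 = e s` -/
theorem mo2_root {l e r : ℕ} (hl : l.Prime) (hel : e ∣ l - 1) (c : ℕ) :
    ((range l).filter (fun x => ¬ l ∣ x ∧ x ^ (r * ((l - 1) / e)) ≡ c [MOD l])).card ≤
      ((l - 1) / e) * Nat.gcd r e := by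
  classical
  have : Fact l.Prime := ⟨hl⟩
  set s := (l - 1) / e with hs
  have hes : e * s = l - 1 := Nat.mul_div_cancel' hel
  have hl1 : 0 < l - 1 := by have := hl.two_le; omega
  have hgcd : Nat.gcd (r * s) (l - 1) = s * Nat.gcd r e := by
    rw [← hes, Nat.gcd_mul_right, mul_comm]
  have hgpos : 0 < Nat.gcd (r * s) (l - 1) := Nat.gcd_pos_of_pos_right _ hl1
  rw [← hgcd]
  set A := (range l).filter (fun x => ¬ l ∣ x ∧ x ^ (r * s) ≡ c [MOD l]) with hA
  rcases A.eq_empty_or_nonempty with h0 | ⟨x0, hx0⟩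
  · rw [h0]; simp
  · have hunit : ∀ x : ℕ, ¬ l ∣ x → ((x : ZMod l) ≠ 0) := by
      intro x hx h
      exact hx ((ZMod.natCast_eq_zero_iff x l).mp h)
    have hx0' := (mem_filter.mp hx0)
    have hle : A.card ≤ (univ.filter (fun u : (ZMod l)ˣ => u ^ (Nat.gcd (r * s) (l - 1)) = 1)).card := by
      apply card_le_card_of_injOn
        (fun x : ℕ => if h : ((x : ZMod l) ≠ 0) then
          (Units.mk0 (x : ZMod l) h) * (Units.mk0 (x0 : ZMod l) (hunit x0 hx0'.2.1))⁻¹ else 1)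
      · intro x hx
        have hx' := mem_filter.mp (mem_coe.mp hx)
        have hxu := hunit x hx'.2.1
        simp only [dif_pos hxu]
        rw [mem_coe, mem_filter]
        refine ⟨mem_univ _, ?_⟩
        have h1 : ((Units.mk0 (x : ZMod l) hxu) *
            (Units.mk0 (x0 : ZMod l) (hunit x0 hx0'.2.1))⁻¹) ^ (r * s) = 1 := by
          rw [mul_pow, inv_pow, mul_inv_eq_one]
          ext
          simp only [Units.val_pow_eq_pow_val, Units.val_mk0]
          have h2 : x ^ (r * s) ≡ x0 ^ (r * s) [MOD l] := hx'.2.2.trans hx0'.2.2.symm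
          have h3 := (ZMod.natCast_eq_natCast_iff _ _ _).mpr h2
          push_cast at h3
          exact h3
        have h4 : ((Units.mk0 (x : ZMod l) hxu) *
            (Units.mk0 (x0 : ZMod l) (hunit x0 hx0'.2.1))⁻¹) ^ (l - 1) = 1 :=
          ZMod.units_pow_card_sub_one_eq_one l _
        exact pow_gcd_eq_one.mpr ⟨h1, h4⟩
      · intro x hx y hy hxy
        have hx' := mem_filter.mp (mem_coe.mp hx)
        have hy' := mem_filter.mp (mem_coe.mp hy)
        have hxu := hunit x hx'.2.1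
        have hyu := hunit y hy'.2.1
        simp only [dif_pos hxu, dif_pos hyu] at hxy
        have h1 := mul_right_cancel hxy
        have h2 : (x : ZMod l) = (y : ZMod l) := by
          have := congrArg Units.val h1
          simpa using this
        have h3 := (ZMod.natCast_eq_natCast_iff' _ _ _).mp h2
        rwa [Nat.mod_eq_of_lt (mem_range.mp hx'.1), Nat.mod_eq_of_lt (mem_range.mp hy'.1)] at h3
    exact hle.trans (IsCyclic.card_pow_eq_one_le hgpos)

/-- a finite set with small fibres -/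
theorem mo2_fib {α : Type} [DecidableEq α] (S : Finset α) {β : Type} [DecidableEq β] (f : α → β)
    (Φ : ℝ) (hΦ : ∀ b ∈ S.image f, ((S.filter (fun a => f a = b)).card : ℝ) ≤ Φ) :
    (S.card : ℝ) ≤ ((S.image f).card : ℝ) * Φ := by
  rw [card_eq_sum_card_image f S]
  push_cast
  refine (sum_le_sum hΦ).trans ?_
  rw [sum_const, nsmul_eq_mul]

theorem mo2_thm : S_MO2 := by
  intro e r P t M U Φ he hM hU hUM hPt hΦ
  classical
  have hMp : ∀ l ∈ M, l.Prime := fun l hl => (hM l hl).1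
  have hΦ0 : (0 : ℝ) ≤ Φ := le_trans (Nat.cast_nonneg _) (hΦ 0)
  -- the products
  have hI : ∀ c : ℕ → ℕ, ((Icc 1 (∏ l ∈ M, l)).filter
      (fun m => ∀ l ∈ M, ¬ l ∣ m ∧ m ^ (r * ((l - 1) / e)) ≡ c l [MOD l])).card ≤
      2 * ∏ l ∈ M, (((l - 1) / e) * Nat.gcd r e) := by
    intro c
    have h := crt_thm M (fun l x => ¬ l ∣ x ∧ x ^ (r * ((l - 1) / e)) ≡ c l [MOD l])
      (fun l => ((((l - 1) / e) * Nat.gcd r e : ℕ) : ℝ)) (∏ l ∈ M, (l : ℝ)) hMp
      (fun l hl => by
        refine Nat.cast_le.mpr ((card_le_card (fun x hx => ?_)).trans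
          (mo2_root (r := r) (hM l hl).1 (hM l hl).2 (c l)))
        simp only [mem_filter] at hx ⊢
        exact hx) le_rfl
    have hfl : ⌊(∏ l ∈ M, (l : ℝ))⌋₊ = ∏ l ∈ M, l := by
      have : (∏ l ∈ M, (l : ℝ)) = ((∏ l ∈ M, l : ℕ) : ℝ) := by push_cast; rfl
      rw [this, Nat.floor_natCast]
    rw [hfl] at h
    have hpos : (∏ l ∈ M, (l : ℝ)) ≠ 0 := by
      rw [prod_ne_zero_iff]
      intro l hl
      exact_mod_cast (hMp l hl).ne_zero
    have h2 : 2 * (∏ l ∈ M, (l : ℝ)) * ∏ l ∈ M, ((((l - 1) / e) * Nat.gcd r e : ℕ) : ℝ) / (l : ℝ) =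
        ((2 * ∏ l ∈ M, (((l - 1) / e) * Nat.gcd r e) : ℕ) : ℝ) := by
      rw [prod_div_distrib, mul_assoc, mul_div_cancel₀ _ hpos]
      push_cast
      rfl
    rw [h2] at h
    refine (card_le_card (fun m hm => ?_)).trans (Nat.cast_le.mp h)
    have hm' := mem_filter.mp hm
    simp only [mem_filter]
    refine ⟨hm'.1, fun l hl => ⟨?_, ?_⟩⟩
    · rw [Nat.dvd_mod_iff (dvd_refl l)]; exact (hm'.2 l hl).1
    · exact ((Nat.mod_modEq m l).pow _).trans (hm'.2 l hl).2
  -- number of the second tuples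
  have hF : ∀ c : ℕ → ℕ, (((Fintype.piFinset fun _ : Fin t => U).filter
      (fun w => ∀ l ∈ M, (∏ i, w i) ^ (r * ((l - 1) / e)) ≡ c l [MOD l])).card : ℝ) ≤
      ((2 * ∏ l ∈ M, (((l - 1) / e) * Nat.gcd r e) : ℕ) : ℝ) * Φ := by
    intro c
    refine (mo2_fib _ (fun w : Fin t → ℕ => ∏ i, w i) Φ (fun b _ => ?_)).trans
      (mul_le_mul_of_nonneg_right (Nat.cast_le.2 ?_) hΦ0)
    · refine le_trans (Nat.cast_le.2 (card_le_card (fun w hw => ?_))) (hΦ b)
      rw [mem_filter, mem_filter] at hw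
      exact mem_filter.2 ⟨hw.1.1, hw.2⟩
    · refine (card_le_card (fun m hm => ?_)).trans (hI c)
      obtain ⟨w, hw, rfl⟩ := mem_image.mp hm
      have hw' := mem_filter.mp hw
      have hwU := Fintype.mem_piFinset.mp hw'.1
      refine mem_filter.mpr ⟨mem_Icc.mpr ⟨?_, ?_⟩, fun l hl => ⟨?_, hw'.2 l hl⟩⟩
      · exact Nat.one_le_iff_ne_zero.mpr (prod_ne_zero_iff.mpr fun i _ => (hU _ (hwU i)).1.ne')
      · refine le_trans ?_ hPt
        calc ∏ i, w i ≤ ∏ _i : Fin t, (2 * P) :=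
              prod_le_prod' (fun i _ => (hU _ (hwU i)).2.le)
          _ = (2 * P) ^ t := by rw [prod_const, card_univ, Fintype.card_fin]
      · intro hd
        obtain ⟨i, _, hi⟩ := ((hMp l hl).prime.dvd_finsetProd_iff _).mp hd
        exact hUM _ (hwU i) l hl hi
  have hDΦ0 : (0 : ℝ) ≤ ((2 * ∏ l ∈ M, (((l - 1) / e) * Nat.gcd r e) : ℕ) : ℝ) * Φ :=
    mul_nonneg (Nat.cast_nonneg _) hΦ0
  have h3 := mo2_fib
    (((Fintype.piFinset fun _ : Fin t => U) ×ˢ (Fintype.piFinset fun _ : Fin t => U)).filter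
    (fun w => ∀ l ∈ M, (∏ i, w.1 i) ^ (r * ((l - 1) / e)) ≡
      (∏ i, w.2 i) ^ (r * ((l - 1) / e)) [MOD l]))
    (fun w : (Fin t → ℕ) × (Fin t → ℕ) => w.1)
    (((2 * ∏ l ∈ M, (((l - 1) / e) * Nat.gcd r e) : ℕ) : ℝ) * Φ) (fun a _ => by
      refine le_trans (Nat.cast_le.2 (card_le_card_of_injOn (fun w => w.2) ?_ ?_))
        (hF (fun l => (∏ i, a i) ^ (r * ((l - 1) / e))))
      · intro w hw
        have hw' := mem_filter.mp (mem_coe.mp hw)
        have hw2 := mem_filter.mp hw'.1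
        have hw3 := mem_product.mp hw2.1
        rw [mem_coe]
        refine mem_filter.mpr ⟨hw3.2, fun l hl => ?_⟩
        have h4 := (hw2.2 l hl).symm
        rw [hw'.2] at h4
        exact h4
      · intro w hw w' hw' hww
        have h5 := (mem_filter.mp (mem_coe.mp hw)).2
        have h6 := (mem_filter.mp (mem_coe.mp hw')).2
        exact Prod.ext (h5.trans h6.symm) hww)
  have h7 : (((((Fintype.piFinset fun _ : Fin t => U) ×ˢ
      (Fintype.piFinset fun _ : Fin t => U)).filter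
    (fun w => ∀ l ∈ M, (∏ i, w.1 i) ^ (r * ((l - 1) / e)) ≡
      (∏ i, w.2 i) ^ (r * ((l - 1) / e)) [MOD l])).image
        (fun w : (Fin t → ℕ) × (Fin t → ℕ) => w.1)).card : ℝ) ≤ (U.card : ℝ) ^ t := by
    have h7' : ((((Fintype.piFinset fun _ : Fin t => U) ×ˢ
      (Fintype.piFinset fun _ : Fin t => U)).filter
    (fun w => ∀ l ∈ M, (∏ i, w.1 i) ^ (r * ((l - 1) / e)) ≡
      (∏ i, w.2 i) ^ (r * ((l - 1) / e)) [MOD l])).image
        (fun w : (Fin t → ℕ) × (Fin t → ℕ) => w.1)).card ≤ U.card ^ t := by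
      refine (card_le_card (t := Fintype.piFinset fun _ : Fin t => U) (fun a ha => ?_)).trans ?_
      · obtain ⟨w, hw, rfl⟩ := mem_image.mp ha
        exact (mem_product.mp (mem_filter.mp hw).1).1
      · rw [Fintype.card_piFinset, prod_const, card_univ, Fintype.card_fin]
    exact_mod_cast h7'
  have h8 := h3.trans (mul_le_mul_of_nonneg_right h7 hDΦ0)
  refine le_trans (Nat.cast_le.mpr (card_le_card (fun w hw => mem_filter.mpr
    ⟨(mem_filter.mp hw).1, (mem_filter.mp hw).2⟩))) (h8.trans (le_of_eq ?_))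
  push_cast
  ring

end Pool.FEX
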